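import Pool.Agent.U926.SF.Cur2

/-!
# Finite generation of etale motivic cohomology of hypersurfaces `g_0 + ⋯ + g_r = 0`

Let `F` be a finite field, and let `g_0, …, g_r` be nonsingular forms of degree `d ≥ 2`, prime to the
characteristic, in separate sets of variables over the algebraic closure of `F`, each in at most two
variables, or (if `d = 3`) in at most four variables. Let `X` be the hypersurface
`g_0(x^(0)) + g_1(x^(1)) + ⋯ + g_r(x^(r)) = 0`. There is no restriction on the number of the forms, so
the dimension of `X` is arbitrary.

**Theorem.** Let `X₀` be a variety over a finite extension of `F` which becomes isomorphic to `X` over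
the algebraic closure. Then the groups `H^i(X₀_et, ℤ^c(n))` are finitely generated for all `i` and all
`n < 0`; in particular Q1 holds for `X₀` (all degrees, not only `i ≤ -2 n + 1`). The same is true for all products of such
hypersurfaces (of any degrees) with curves, abelian varieties and all other varieties which are built
from products of curves, and for every variety which is built from such products: for example for the
coverings `w ^ m = F(x)` of the projective space, `m` a divisor of `d` and `F = g_0 + ⋯ + g_r`, for
quotients and images under generically finite morphisms, for the blow-ups of such products in such
products, and for projective bundles over them.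

So these varieties belong to the class of the varieties with Chow motives of abelian type, for which
the statement is known. New is that the hypersurfaces belong to it. (`r = 0`: curves, cubic surfaces
and threefolds; the Fermat hypersurfaces are known, too.)

The known theorems which are used:

* the formal properties of the Chow groups (`IsChowProj`);
* `hT`, the theorem of Katsura and Shioda: `f(x) + g(y) = 0` is dominated by the product of
  `f(x) + z ^ d = 0` and `g(y) + w ^ d = 0`, blown up in the product of `f(x) = 0` and `g(y) = 0`;
* `hK`: the motives of cubic surfaces and cubic threefolds are direct summands of sums of Tate twists of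
  motives of curves;
* `hA`: the theorem of Soulé, Geisser, Kahn and Morin on motives of abelian type.
-/

universe u v

namespace Pool.Agent.Results.MP_c1eb4d_ag.SumsOfForms

open Pool.Agent.H914 Pool.Agent.W492.BB Pool.Agent.TH133 Pool.Agent.U926.SF

/-- **Finite generation of `H^i(X₀_et, ℤ^c(n))`, `n < 0`**, for the hypersurfaces `g_0 + ⋯ + g_r = 0` with
equations in separate sets of variables over finite fields, for their products with varieties built
from products of curves, and for all varieties which are built from these products. -/
theorem result {F : Type u} [Field F] [Finite F] {𝒱 : VarClass (AlgebraicClosure F)}
    {C : TheoryData.{u, v, 0} 𝒱 ℚ} [IsChowProj C] (T : Hypersurfaces 𝒱)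
    (hT : ∀ d : ℕ, 2 ≤ d → (d : AlgebraicClosure F) ≠ 0 → IsKatsuraShioda C T d)
    (hK : CubicsHaveCurveMotives C T) (W : ModelGroups F 𝒱 (ℤ × ℤ))
    (hA : AbelianTypeTheorem C W) (X : 𝒱.Obj) (hX : IsBuiltFrom C (IsSumOfCurveType C T) X) :
    NegativeWeights W X :=
  hA X (hX.trans fun _ hY => hY.isBuiltFrom hT hK)

end Pool.Agent.Results.MP_c1eb4d_ag.SumsOfForms
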